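import Mathlib

set_option autoImplicit false

open scoped ContDiff

/-!
# Levi form, Euclidean balls: definitions
-/

namespace Pool.Agent.U500.Inst

/-- The Levi form (complex Hessian) `∑ ∂²ρ/∂z_j∂z̄_k (z) v_j v̄_k`, that is, a quarter of the
Laplacian at `ζ = 0` of `ζ ↦ ρ (z + ζ v)`. -/
noncomputable def leviForm {n : ℕ} (ρ : (Fin n → ℂ) → ℝ) (z v : Fin n → ℂ) : ℝ :=
  (iteratedDeriv 2 (fun s : ℝ => ρ (z + s • v)) 0 +
    iteratedDeriv 2 (fun s : ℝ => ρ (z + s • (Complex.I • v))) 0) / 4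

/-- The square of the Euclidean norm, `|z|² = ∑ |z_i|²`. -/
noncomputable def nsq {n : ℕ} (z : Fin n → ℂ) : ℝ := ∑ i, ‖z i‖ ^ 2

end Pool.Agent.U500.Inst
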