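import Mathlib
import Pool.Agent.U500.Inst.Defs

set_option autoImplicit false

/-!
# The profile function and the Levi form of the defining function
-/

open Metric Set
open scoped ContDiff InnerProductSpace

namespace Pool.Agent.U500.Inst

noncomputable def ff (m : ℕ) (s : ℝ) (z : ℂ) : ℂ := (z / s) ^ m - 1

noncomputable def gg (m : ℕ) (s : ℝ) (z : ℂ) : ℝ := ‖ff m s z‖ ^ 2 + Real.exp (-(4 * m))

noncomputable def uu (m : ℕ) (s : ℝ) (z : ℂ) : ℝ := s ^ 2 * (4 + Real.log (gg m s z) / m)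

noncomputable def rho (n m : ℕ) (s : ℝ) (x : Fin (n + 2) → ℂ) : ℝ :=
  ‖x 0‖ ^ 2 + Real.exp (2 * uu m s (x 0)) * ∑ i : Fin (n + 1), ‖x i.succ‖ ^ 2 - 1

lemma gg_pos (m : ℕ) (s : ℝ) (z : ℂ) : 0 < gg m s z := by
  unfold gg; positivity

lemma gg_ge (m : ℕ) (s : ℝ) (z : ℂ) : Real.exp (-(4 * m)) ≤ gg m s z := by
  unfold gg
  have : 0 ≤ ‖ff m s z‖ ^ 2 := by positivity
  linarith

lemma uu_nonneg {m : ℕ} (hm : 0 < m) (s : ℝ) (z : ℂ) : 0 ≤ uu m s z := by
  unfold uu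
  have hmR : (0 : ℝ) < m := by exact_mod_cast hm
  apply mul_nonneg (by positivity)
  have h1 : -(4 * (m : ℝ)) ≤ Real.log (gg m s z) := by
    rw [Real.le_log_iff_exp_le (gg_pos m s z)]
    exact gg_ge m s z
  have h2 : -4 ≤ Real.log (gg m s z) / m := by
    rw [le_div_iff₀ hmR]
    linarith
  linarith

lemma uu_zero {m : ℕ} (hm : 0 < m) {s : ℝ} (hs : s ≠ 0) {a : ℂ} (ha : a ^ m = 1) :
    uu m s (s * a) = 0 := by
  have hmR : (m : ℝ) ≠ 0 := by exact_mod_cast hm.ne'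
  have h1 : ff m s (s * a) = 0 := by
    unfold ff
    rw [mul_div_cancel_left₀ _ (by exact_mod_cast hs), ha, sub_self]
  unfold uu gg
  rw [h1, norm_zero, zero_pow (by norm_num), zero_add, Real.log_exp]
  field_simp
  ring

/-- upper bound on the disc of radius `2 s` -/
lemma uu_le {m : ℕ} (hm : 0 < m) {s : ℝ} (hs : 0 < s) {z : ℂ} (hz : ‖z‖ ≤ 2 * s) :
    uu m s z ≤ s ^ 2 * 6.8 := by
  have hmR : (1 : ℝ) ≤ m := by exact_mod_cast hm
  unfold uu
  apply mul_le_mul_of_nonneg_left _ (by positivity)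
  have h1 : ‖ff m s z‖ ≤ 2 ^ m + 1 := by
    unfold ff
    refine (norm_sub_le _ _).trans ?_
    rw [norm_one, norm_pow, norm_div, Complex.norm_real, Real.norm_of_nonneg hs.le]
    gcongr
    rw [div_le_iff₀ hs]
    exact hz
  have h2 : gg m s z ≤ 4 ^ (m + 1) := by
    unfold gg
    have h3 : Real.exp (-(4 * (m : ℝ))) ≤ 1 := by
      rw [Real.exp_le_one_iff]; linarith
    have h4 : (4 : ℝ) ^ (m + 1) = 4 * (2 ^ m) ^ 2 := by
      rw [← pow_mul, mul_comm m 2, pow_mul]; norm_num; ring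
    have h5 : (2 : ℝ) ≤ 2 ^ m := by
      calc (2 : ℝ) = 2 ^ 1 := by norm_num
        _ ≤ 2 ^ m := pow_le_pow_right₀ (by norm_num) hm
    rw [h4]
    nlinarith [norm_nonneg (ff m s z)]
  have h6 : Real.log (gg m s z) ≤ (m + 1) * Real.log 4 := by
    calc Real.log (gg m s z) ≤ Real.log (4 ^ (m + 1)) := Real.log_le_log (gg_pos m s z) h2
      _ = _ := by rw [Real.log_pow]; push_cast; ring
  have h7 : Real.log 4 ≤ 1.4 := by
    have : Real.log 4 = 2 * Real.log 2 := by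
      rw [← Real.log_rpow (by norm_num)]; norm_num
    rw [this]
    have := Real.log_two_lt_d9
    linarith
  have h8 : Real.log (gg m s z) / m ≤ 2.8 := by
    rw [div_le_iff₀ (by linarith)]
    nlinarith
  linarith

/-- lower bound on the disc of radius `s / 2` -/
lemma le_uu {m : ℕ} (hm : 0 < m) {s : ℝ} (hs : 0 < s) {z : ℂ} (hz : ‖z‖ ≤ s / 2) :
    s ^ 2 * 2.6 ≤ uu m s z := by
  have hmR : (1 : ℝ) ≤ m := by exact_mod_cast hm
  unfold uu
  apply mul_le_mul_of_nonneg_left _ (by positivity)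
  have h1 : 1 / 2 ≤ ‖ff m s z‖ := by
    unfold ff
    rw [norm_sub_rev]
    have h2 : ‖(z / (s : ℂ)) ^ m‖ ≤ 1 / 2 := by
      rw [norm_pow, norm_div, Complex.norm_real, Real.norm_of_nonneg hs.le]
      calc (‖z‖ / s) ^ m ≤ (1 / 2) ^ m := by
            apply pow_le_pow_left₀ (by positivity)
            rw [div_le_iff₀ hs]; linarith
        _ ≤ (1 / 2) ^ 1 := pow_le_pow_of_le_one (by norm_num) (by norm_num) hm
        _ = 1 / 2 := pow_one _
    have h3 := norm_sub_norm_le (1 : ℂ) ((z / (s : ℂ)) ^ m)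
    rw [norm_one] at h3
    linarith
  have h2 : 1 / 4 ≤ gg m s z := by
    unfold gg
    have := Real.exp_pos (-(4 * (m : ℝ)))
    nlinarith
  have h7 : Real.log 4 ≤ 1.4 := by
    have : Real.log 4 = 2 * Real.log 2 := by
      rw [← Real.log_rpow (by norm_num)]; norm_num
    rw [this]
    have := Real.log_two_lt_d9
    linarith
  have h6 : -1.4 ≤ Real.log (gg m s z) := by
    calc (-1.4 : ℝ) ≤ -Real.log 4 := by linarith
      _ = Real.log (1 / 4) := by rw [one_div, Real.log_inv]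
      _ ≤ _ := Real.log_le_log (by norm_num) h2
  have h8 : -1.4 ≤ Real.log (gg m s z) / m := by
    rw [le_div_iff₀ (by linarith)]
    nlinarith
  linarith

/-- the profile is small -/
lemma uu_le_small {m : ℕ} (hm : 0 < m) {s : ℝ} (hs : 0 < s) (hs1 : s ≤ 1) {z : ℂ}
    (hz : ‖z‖ ≤ 1) : uu m s z ≤ 8 * s := by
  have hmR : (1 : ℝ) ≤ m := by exact_mod_cast hm
  have h1 : ‖ff m s z‖ ≤ (1 / s) ^ m + 1 := by
    unfold ff
    refine (norm_sub_le _ _).trans ?_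
    rw [norm_one, norm_pow, norm_div, Complex.norm_real, Real.norm_of_nonneg hs.le]
    gcongr
  have hs2 : 1 ≤ 1 / s := by rw [le_div_iff₀ hs]; linarith
  have hs3 : 1 ≤ (1 / s) ^ m := one_le_pow₀ hs2
  have h2 : gg m s z ≤ 5 * ((1 / s) ^ m) ^ 2 := by
    unfold gg
    have h3 : Real.exp (-(4 * (m : ℝ))) ≤ 1 := by
      rw [Real.exp_le_one_iff]; linarith
    nlinarith [norm_nonneg (ff m s z)]
  have h6 : Real.log (gg m s z) ≤ Real.log 5 + 2 * m * Real.log (1 / s) := by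
    calc Real.log (gg m s z) ≤ Real.log (5 * ((1 / s) ^ m) ^ 2) :=
          Real.log_le_log (gg_pos m s z) h2
      _ = _ := by
        rw [Real.log_mul (by norm_num) (by positivity), Real.log_pow, Real.log_pow]
        push_cast; ring
  have h7 : Real.log 5 ≤ 2 := by
    rw [Real.log_le_iff_le_exp (by norm_num)]
    have := Real.quadratic_le_exp_of_nonneg (x := 2) (by norm_num)
    linarith
  have h8 : Real.log (1 / s) ≤ 1 / s - 1 := Real.log_le_sub_one_of_pos (by positivity)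
  have h9 : Real.log (gg m s z) / m ≤ 2 + 2 * (1 / s - 1) := by
    rw [div_le_iff₀ (by linarith)]
    have : 2 * (m : ℝ) * Real.log (1 / s) ≤ 2 * m * (1 / s - 1) := by gcongr
    nlinarith
  unfold uu
  calc s ^ 2 * (4 + Real.log (gg m s z) / m) ≤ s ^ 2 * (4 + (2 + 2 * (1 / s - 1))) := by gcongr
    _ = 4 * s ^ 2 + 2 * s := by field_simp; ring
    _ ≤ 8 * s := by nlinarith

/-! ### Derivatives along lines -/

lemma iter2 {φ φ1 : ℝ → ℝ} {c : ℝ} (h1 : ∀ σ, HasDerivAt φ (φ1 σ) σ) (h2 : HasDerivAt φ1 c 0) :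
    iteratedDeriv 2 φ 0 = c := by
  have h3 : deriv φ = φ1 := funext fun σ => (h1 σ).deriv
  rw [iteratedDeriv_succ, iteratedDeriv_one, h3, h2.deriv]

noncomputable def ff1 (m : ℕ) (s : ℝ) (z : ℂ) : ℂ := m * (z / s) ^ (m - 1) * (1 / s)

noncomputable def ff2 (m : ℕ) (s : ℝ) (z : ℂ) : ℂ :=
  m * (((m - 1 : ℕ) : ℂ) * (z / s) ^ (m - 1 - 1) * (1 / s)) * (1 / s)

lemma hasDerivAt_ff (m : ℕ) (s : ℝ) (z : ℂ) : HasDerivAt (ff m s) (ff1 m s z) z := by
  unfold ff ff1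
  have h1 : HasDerivAt (fun z : ℂ => z / (s : ℂ)) (1 / s) z := (hasDerivAt_id z).div_const _
  exact (h1.fun_pow m).sub_const 1

lemma hasDerivAt_ff1 (m : ℕ) (s : ℝ) (z : ℂ) : HasDerivAt (ff1 m s) (ff2 m s z) z := by
  unfold ff1 ff2
  have h1 : HasDerivAt (fun z : ℂ => z / (s : ℂ)) (1 / s) z := (hasDerivAt_id z).div_const _
  exact ((h1.fun_pow (m - 1)).const_mul (m : ℂ)).mul_const _

/-- first derivative of the profile in direction `a` -/
noncomputable def u1 (m : ℕ) (s : ℝ) (z a : ℂ) : ℝ :=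
  s ^ 2 * (2 * ⟪ff m s z, a * ff1 m s z⟫_ℝ / gg m s z / m)

/-- second derivative of the profile in direction `a` -/
noncomputable def u2 (m : ℕ) (s : ℝ) (z a : ℂ) : ℝ :=
  s ^ 2 * ((2 * (⟪ff m s z, a * (a * ff2 m s z)⟫_ℝ + ⟪a * ff1 m s z, a * ff1 m s z⟫_ℝ) * gg m s z -
    2 * ⟪ff m s z, a * ff1 m s z⟫_ℝ * (2 * ⟪ff m s z, a * ff1 m s z⟫_ℝ)) / gg m s z ^ 2 / m)

lemma hasDerivAt_line (z a : ℂ) (σ : ℝ) : HasDerivAt (fun σ : ℝ => z + σ • a) a σ := by
  have := ((hasDerivAt_id σ).smul_const a).const_add z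
  simpa using this

lemma line_ff (m : ℕ) (s : ℝ) (z a : ℂ) (σ : ℝ) :
    HasDerivAt (fun σ : ℝ => ff m s (z + σ • a)) (a * ff1 m s (z + σ • a)) σ := by
  have := (hasDerivAt_ff m s (z + σ • a)).scomp σ (hasDerivAt_line z a σ)
  exact this

lemma line_ff1 (m : ℕ) (s : ℝ) (z a : ℂ) (σ : ℝ) :
    HasDerivAt (fun σ : ℝ => a * ff1 m s (z + σ • a)) (a * (a * ff2 m s (z + σ • a))) σ := by
  have := ((hasDerivAt_ff1 m s (z + σ • a)).scomp σ (hasDerivAt_line z a σ)).const_mul a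
  simpa [smul_eq_mul] using this

lemma line_gg (m : ℕ) (s : ℝ) (z a : ℂ) (σ : ℝ) :
    HasDerivAt (fun σ : ℝ => gg m s (z + σ • a))
      (2 * ⟪ff m s (z + σ • a), a * ff1 m s (z + σ • a)⟫_ℝ) σ := by
  unfold gg
  exact ((line_ff m s z a σ).norm_sq).add_const _

lemma line_uu (m : ℕ) (s : ℝ) (z a : ℂ) (σ : ℝ) :
    HasDerivAt (fun σ : ℝ => uu m s (z + σ • a)) (u1 m s (z + σ • a) a) σ := by
  unfold uu u1
  exact ((((line_gg m s z a σ).log (gg_pos m s _).ne').div_const _).const_add 4).const_mul _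

lemma line_u1 (m : ℕ) (s : ℝ) (z a : ℂ) (σ : ℝ) :
    HasDerivAt (fun σ : ℝ => u1 m s (z + σ • a) a) (u2 m s (z + σ • a) a) σ := by
  unfold u1 u2
  have h1 := ((line_ff m s z a σ).inner ℝ (line_ff1 m s z a σ)).const_mul 2
  have h2 := ((h1.fun_div (line_gg m s z a σ) (gg_pos m s _).ne').div_const (m : ℝ)).const_mul
    (s ^ 2)
  convert h2 using 1

lemma inner_sq_add (f g : ℂ) : ⟪f, g⟫_ℝ ^ 2 + ⟪f, Complex.I * g⟫_ℝ ^ 2 = ‖f‖ ^ 2 * ‖g‖ ^ 2 := by
  rw [Complex.inner, Complex.inner, ← Complex.normSq_eq_norm_sq, ← Complex.normSq_eq_norm_sq,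
    Complex.normSq_apply, Complex.normSq_apply]
  simp
  ring

/-- the profile is subharmonic -/
lemma u2_add (m : ℕ) (s : ℝ) (z a : ℂ) : 0 ≤ u2 m s z a + u2 m s z (Complex.I * a) := by
  have h1 := inner_sq_add (ff m s z) (a * ff1 m s z)
  have hg := gg_pos m s z
  have e1 : ⟪ff m s z, Complex.I * a * (Complex.I * a * ff2 m s z)⟫_ℝ =
      -⟪ff m s z, a * (a * ff2 m s z)⟫_ℝ := by
    rw [← inner_neg_right]
    congr 1
    linear_combination (a * (a * ff2 m s z)) * Complex.I_mul_I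
  have e2 : ∀ w : ℂ, ⟪w, w⟫_ℝ = ‖w‖ ^ 2 := fun w => real_inner_self_eq_norm_sq w
  have e3 : ‖Complex.I * a * ff1 m s z‖ = ‖a * ff1 m s z‖ := by
    rw [mul_assoc, norm_mul, Complex.norm_I, one_mul]
  have hle : ‖ff m s z‖ ^ 2 ≤ gg m s z := by
    unfold gg
    have := Real.exp_pos (-(4 * (m : ℝ)))
    linarith
  have key : u2 m s z a + u2 m s z (Complex.I * a) =
      s ^ 2 * (4 * ‖a * ff1 m s z‖ ^ 2 * (gg m s z - ‖ff m s z‖ ^ 2) / gg m s z ^ 2 / m) := by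
    unfold u2
    rw [e1, e2, e2, e3, mul_assoc Complex.I a (ff1 m s z)]
    have : 4 * (⟪ff m s z, a * ff1 m s z⟫_ℝ ^ 2 + ⟪ff m s z, Complex.I * (a * ff1 m s z)⟫_ℝ ^ 2) =
      4 * (‖ff m s z‖ ^ 2 * ‖a * ff1 m s z‖ ^ 2) := by rw [h1]
    rw [← mul_add, ← add_div, ← add_div]
    congr 3
    linear_combination (-1 : ℝ) * this
  rw [key]
  have : 0 ≤ gg m s z - ‖ff m s z‖ ^ 2 := by linarith
  positivity

/-- bound of the gradient of the profile -/
lemma u1_le {m : ℕ} (hm : 0 < m) {s : ℝ} (hs : 0 < s) (z a : ℂ) :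
    |u1 m s z a| ≤ 2 * s * (1 + 2 ^ m * Real.exp (2 * m)) * ‖a‖ := by
  have hmR : (0 : ℝ) < m := by exact_mod_cast hm
  have hg := gg_pos m s z
  have h0 : ‖ff1 m s z‖ = m * ‖z / s‖ ^ (m - 1) * (1 / s) := by
    unfold ff1
    rw [norm_mul, norm_mul, norm_pow, Complex.norm_natCast, norm_div (1 : ℂ), norm_one,
      Complex.norm_real, Real.norm_of_nonneg hs.le]
  have h1 : |⟪ff m s z, a * ff1 m s z⟫_ℝ| ≤ ‖ff m s z‖ * (‖a‖ * ‖ff1 m s z‖) := by
    rw [← norm_mul]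
    exact abs_real_inner_le_norm _ _
  have h2 : ‖ff m s z‖ * ‖z / s‖ ^ (m - 1) ≤ (1 + 2 ^ m * Real.exp (2 * m)) * gg m s z := by
    by_cases hz : ‖z / s‖ ≤ 2
    · have h3 : ‖ff m s z‖ ≤ Real.exp (2 * m) * gg m s z := by
        have h4 : Real.exp (-(4 * (m : ℝ))) = Real.exp (-(2 * m)) ^ 2 := by
          rw [← Real.exp_nat_mul]; congr 1; push_cast; ring
        have h5 : Real.exp (-(2 * (m : ℝ))) * ‖ff m s z‖ ≤ gg m s z := by
          unfold gg
          rw [h4]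
          nlinarith [sq_nonneg (‖ff m s z‖ - Real.exp (-(2 * (m : ℝ))))]
        calc ‖ff m s z‖ = Real.exp (2 * m) * (Real.exp (-(2 * (m : ℝ))) * ‖ff m s z‖) := by
              rw [← mul_assoc, ← Real.exp_add]
              simp
          _ ≤ _ := by gcongr
      have h6 : ‖z / (s : ℂ)‖ ^ (m - 1) ≤ 2 ^ m := by
        calc ‖z / (s : ℂ)‖ ^ (m - 1) ≤ 2 ^ (m - 1) := by gcongr
          _ ≤ 2 ^ m := pow_le_pow_right₀ (by norm_num) (by omega)
      calc ‖ff m s z‖ * ‖z / s‖ ^ (m - 1) ≤ (Real.exp (2 * m) * gg m s z) * 2 ^ m := by gcongr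
        _ ≤ (1 + 2 ^ m * Real.exp (2 * m)) * gg m s z := by nlinarith
    · push Not at hz
      set q := ‖z / (s : ℂ)‖ with hq
      have h7 : q ^ m ≤ 2 * ‖ff m s z‖ := by
        have h8 : q ^ m - 1 ≤ ‖ff m s z‖ := by
          have := norm_sub_norm_le ((z / (s : ℂ)) ^ m) 1
          rw [norm_one, norm_pow] at this
          exact this
        have h9 : 2 ≤ q ^ m := by
          calc (2 : ℝ) ≤ q := hz.le
            _ = q ^ 1 := (pow_one _).symm
            _ ≤ q ^ m := pow_le_pow_right₀ (by linarith) hm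
        linarith
      have h10 : q ^ m = q * q ^ (m - 1) := by
        rw [← pow_succ']
        congr 1
        omega
      have h11 : q ^ (m - 1) ≤ ‖ff m s z‖ := by
        have : 0 ≤ q ^ (m - 1) := by positivity
        nlinarith
      have h12 : ‖ff m s z‖ * q ^ (m - 1) ≤ gg m s z := by
        unfold gg
        have := Real.exp_pos (-(4 * (m : ℝ)))
        nlinarith [norm_nonneg (ff m s z)]
      have h13 : 0 ≤ 2 ^ m * Real.exp (2 * m) * gg m s z := by positivity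
      linarith
  unfold u1
  rw [abs_mul, abs_div, abs_div, abs_mul, abs_of_pos hg, abs_of_pos hmR, abs_of_nonneg (sq_nonneg s),
    abs_two]
  calc s ^ 2 * (2 * |⟪ff m s z, a * ff1 m s z⟫_ℝ| / gg m s z / m)
      ≤ s ^ 2 * (2 * (‖ff m s z‖ * (‖a‖ * ‖ff1 m s z‖)) / gg m s z / m) := by gcongr
    _ = 2 * s * ‖a‖ * (‖ff m s z‖ * ‖z / s‖ ^ (m - 1) / gg m s z) := by
        rw [h0]
        field_simp
    _ ≤ 2 * s * ‖a‖ * (1 + 2 ^ m * Real.exp (2 * m)) := by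
        gcongr
        rw [div_le_iff₀ hg]
        exact h2
    _ = _ := by ring

end Pool.Agent.U500.Inst
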