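import Mathlib
import Pool.Agent.U500.Inst.Prof

set_option autoImplicit false

/-!
# The defining function `|z|² + e^{2u(z)} |y|² - 1`
-/

open Metric Set
open scoped ContDiff InnerProductSpace

namespace Pool.Agent.U500.Inst

variable {n : ℕ}

/-- the last coordinates -/
noncomputable def NN (x : Fin (n + 2) → ℂ) : ℝ := ∑ i : Fin (n + 1), ‖x i.succ‖ ^ 2

/-- the derivative of `NN` at `x` in direction `v` -/
noncomputable def N1 (x v : Fin (n + 2) → ℂ) : ℝ := ∑ i : Fin (n + 1), 2 * ⟪x i.succ, v i.succ⟫_ℝ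

lemma NN_nonneg (x : Fin (n + 2) → ℂ) : 0 ≤ NN x := Finset.sum_nonneg fun _ _ => by positivity

lemma nsq_eq (x : Fin (n + 2) → ℂ) : nsq x = ‖x 0‖ ^ 2 + NN x := by
  unfold nsq NN
  rw [Fin.sum_univ_succ]

lemma rho_eq (m : ℕ) (s : ℝ) (x : Fin (n + 2) → ℂ) :
    rho n m s x = ‖x 0‖ ^ 2 + Real.exp (2 * uu m s (x 0)) * NN x - 1 := rfl

lemma line_NN (x v : Fin (n + 2) → ℂ) (σ : ℝ) :
    HasDerivAt (fun σ : ℝ => NN (x + σ • v)) (N1 (x + σ • v) v) σ := by
  unfold NN N1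
  apply HasDerivAt.fun_sum
  intro i _
  exact (hasDerivAt_line (x i.succ) (v i.succ) σ).norm_sq

lemma line_N1 (x v : Fin (n + 2) → ℂ) (σ : ℝ) :
    HasDerivAt (fun σ : ℝ => N1 (x + σ • v) v) (2 * NN v) σ := by
  unfold NN N1
  rw [Finset.mul_sum]
  apply HasDerivAt.fun_sum
  intro i _
  have h1 := ((hasDerivAt_line (x i.succ) (v i.succ) σ).inner ℝ
    (hasDerivAt_const σ (v i.succ))).const_mul 2
  rw [inner_zero_right, zero_add, real_inner_self_eq_norm_sq] at h1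
  exact h1

/-- first derivative of `rho` along a line -/
noncomputable def r1 (m : ℕ) (s : ℝ) (x v : Fin (n + 2) → ℂ) : ℝ :=
  2 * ⟪x 0, v 0⟫_ℝ + (Real.exp (2 * uu m s (x 0)) * (2 * u1 m s (x 0) (v 0)) * NN x +
    Real.exp (2 * uu m s (x 0)) * N1 x v)

lemma line_rho (m : ℕ) (s : ℝ) (x v : Fin (n + 2) → ℂ) (σ : ℝ) :
    HasDerivAt (fun σ : ℝ => rho n m s (x + σ • v)) (r1 m s (x + σ • v) v) σ := by
  have h1 := (hasDerivAt_line (x 0) (v 0) σ).norm_sq
  have h2 := ((line_uu m s (x 0) (v 0) σ).const_mul 2).exp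
  exact (h1.add (h2.mul (line_NN x v σ))).sub_const 1

lemma line_r1 (m : ℕ) (s : ℝ) (x v : Fin (n + 2) → ℂ) :
    HasDerivAt (fun σ : ℝ => r1 m s (x + σ • v) v)
      (2 * ‖v 0‖ ^ 2 + Real.exp (2 * uu m s (x 0)) * (4 * u1 m s (x 0) (v 0) ^ 2 * NN x +
        4 * (u1 m s (x 0) (v 0) * N1 x v) + 2 * u2 m s (x 0) (v 0) * NN x + 2 * NN v)) 0 := by
  have h1 := ((hasDerivAt_line (x 0) (v 0) 0).inner ℝ (hasDerivAt_const (0 : ℝ) (v 0))).const_mul 2
  have h2 := ((line_uu m s (x 0) (v 0) 0).const_mul 2).exp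
  have h3 := (line_u1 m s (x 0) (v 0) 0).const_mul 2
  have h4 := (h2.mul h3).mul (line_NN x v 0)
  have h5 := h2.mul (line_N1 x v 0)
  refine HasDerivAt.congr_deriv (h1.add (h4.add h5)) ?_
  simp only [zero_smul, add_zero, inner_zero_right, zero_add, real_inner_self_eq_norm_sq,
    Pi.mul_apply]
  ring

lemma leviForm_rho (m : ℕ) (s : ℝ) (x v : Fin (n + 2) → ℂ) :
    leviForm (rho n m s) x v = ‖v 0‖ ^ 2 + Real.exp (2 * uu m s (x 0)) *
      ((u1 m s (x 0) (v 0) ^ 2 + u1 m s (x 0) (Complex.I * v 0) ^ 2) * NN x +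
        (u1 m s (x 0) (v 0) * N1 x v + u1 m s (x 0) (Complex.I * v 0) * N1 x (Complex.I • v)) +
        (u2 m s (x 0) (v 0) + u2 m s (x 0) (Complex.I * v 0)) / 2 * NN x + NN v) := by
  unfold leviForm
  rw [iter2 (line_rho m s x v) (line_r1 m s x v),
    iter2 (line_rho m s x (Complex.I • v)) (line_r1 m s x (Complex.I • v))]
  have h1 : NN (Complex.I • v) = NN v := by
    unfold NN
    simp
  have h2 : ‖(Complex.I • v) 0‖ = ‖v 0‖ := by simp
  have h3 : (Complex.I • v) 0 = Complex.I * v 0 := rfl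
  rw [h1, h2, h3]
  ring

lemma N1_bound (x v : Fin (n + 2) → ℂ) (hx : NN x ≤ 1) (κ : ℝ) (hκ : 0 ≤ κ) (c : ℝ)
    (hc : |c| ≤ κ * ‖v 0‖) : |c * N1 x v| ≤ κ * nsq v := by
  have h1 : |N1 x v| ≤ ∑ i : Fin (n + 1), 2 * (‖x i.succ‖ * ‖v i.succ‖) := by
    unfold N1
    refine (Finset.abs_sum_le_sum_abs _ _).trans (Finset.sum_le_sum fun i _ => ?_)
    rw [abs_mul, abs_two]
    gcongr
    exact abs_real_inner_le_norm _ _
  have h2 : ∑ i : Fin (n + 1), ‖v 0‖ * (2 * (‖x i.succ‖ * ‖v i.succ‖)) ≤ nsq v := by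
    calc ∑ i : Fin (n + 1), ‖v 0‖ * (2 * (‖x i.succ‖ * ‖v i.succ‖))
        ≤ ∑ i : Fin (n + 1), (‖v 0‖ ^ 2 * ‖x i.succ‖ ^ 2 + ‖v i.succ‖ ^ 2) := by
          refine Finset.sum_le_sum fun i _ => ?_
          nlinarith [sq_nonneg (‖v 0‖ * ‖x i.succ‖ - ‖v i.succ‖)]
      _ = ‖v 0‖ ^ 2 * NN x + NN v := by
          rw [Finset.sum_add_distrib, ← Finset.mul_sum]; rfl
      _ ≤ nsq v := by
          rw [nsq_eq]
          nlinarith [sq_nonneg ‖v 0‖]
  rw [abs_mul]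
  calc |c| * |N1 x v| ≤ (κ * ‖v 0‖) * ∑ i : Fin (n + 1), 2 * (‖x i.succ‖ * ‖v i.succ‖) := by
        gcongr
    _ = κ * ∑ i : Fin (n + 1), ‖v 0‖ * (2 * (‖x i.succ‖ * ‖v i.succ‖)) := by
        rw [mul_assoc, Finset.mul_sum]
    _ ≤ κ * nsq v := by gcongr

lemma nsq_I (v : Fin n → ℂ) : nsq (Complex.I • v) = nsq v := by
  unfold nsq; simp

/-- Lower bound of the Levi form. -/
lemma leviForm_ge {m : ℕ} {s : ℝ} {κ : ℝ} (hκ : 0 ≤ κ)
    (hu : ∀ z a : ℂ, |u1 m s z a| ≤ κ * ‖a‖) (x v : Fin (n + 2) → ℂ) (hx : nsq x ≤ 1)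
    (hu0 : 0 ≤ uu m s (x 0)) (hu1 : Real.exp (2 * uu m s (x 0)) ≤ 2) :
    (1 - 4 * κ) * nsq v ≤ leviForm (rho n m s) x v := by
  have hN : NN x ≤ 1 := by
    rw [nsq_eq] at hx
    nlinarith [sq_nonneg ‖x 0‖]
  have hN0 := NN_nonneg x
  have hNv := NN_nonneg v
  rw [leviForm_rho]
  set e := Real.exp (2 * uu m s (x 0)) with he
  have he1 : 1 ≤ e := by
    rw [he, Real.one_le_exp_iff]; linarith
  have h1 : |u1 m s (x 0) (v 0) * N1 x v| ≤ κ * nsq v :=
    N1_bound x v hN κ hκ _ (hu _ _)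
  have h2 : |u1 m s (x 0) (Complex.I * v 0) * N1 x (Complex.I • v)| ≤ κ * nsq v := by
    have := N1_bound x (Complex.I • v) hN κ hκ (u1 m s (x 0) (Complex.I * v 0)) (hu _ _)
    rwa [nsq_I] at this
  have h3 := u2_add m s (x 0) (v 0)
  have h4 : 0 ≤ (u1 m s (x 0) (v 0) ^ 2 + u1 m s (x 0) (Complex.I * v 0) ^ 2) * NN x := by
    positivity
  have h5 : 0 ≤ (u2 m s (x 0) (v 0) + u2 m s (x 0) (Complex.I * v 0)) / 2 * NN x := by
    positivity
  have h6 := (abs_le.1 h1).1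
  have h7 := (abs_le.1 h2).1
  have h8 : 0 ≤ κ * nsq v := by
    have : 0 ≤ nsq v := by rw [nsq_eq]; positivity
    positivity
  have h9 : NN v - 2 * (κ * nsq v) ≤
      (u1 m s (x 0) (v 0) ^ 2 + u1 m s (x 0) (Complex.I * v 0) ^ 2) * NN x +
        (u1 m s (x 0) (v 0) * N1 x v + u1 m s (x 0) (Complex.I * v 0) * N1 x (Complex.I • v)) +
        (u2 m s (x 0) (v 0) + u2 m s (x 0) (Complex.I * v 0)) / 2 * NN x + NN v := by
    linarith
  have h10 : NN v - 4 * (κ * nsq v) ≤ e * (NN v - 2 * (κ * nsq v)) := by nlinarith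
  have h11 : e * (NN v - 2 * (κ * nsq v)) ≤ e * _ := mul_le_mul_of_nonneg_left h9 (by linarith)
  calc (1 - 4 * κ) * nsq v = ‖v 0‖ ^ 2 + (NN v - 4 * (κ * nsq v)) := by
        rw [nsq_eq v]; ring
    _ ≤ _ := by linarith

lemma contDiff_rho (m : ℕ) (s : ℝ) : ContDiff ℝ ∞ (rho n m s) := by
  have h1 : ContDiff ℝ ∞ (gg m s) := by
    unfold gg ff
    apply ContDiff.add _ contDiff_const
    apply ContDiff.norm_sq ℝ
    fun_prop
  have h2 : ContDiff ℝ ∞ (uu m s) := by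
    unfold uu
    exact contDiff_const.mul (contDiff_const.add ((h1.log fun z => (gg_pos m s z).ne').div_const _))
  have h3 : ContDiff ℝ ∞ (fun x : Fin (n + 2) → ℂ => uu m s (x 0)) := h2.comp (contDiff_apply ℝ ℂ 0)
  unfold rho
  apply ContDiff.sub _ contDiff_const
  apply ContDiff.add
  · exact (contDiff_apply ℝ ℂ (0 : Fin (n + 2))).norm_sq ℝ
  · apply ContDiff.mul (Real.contDiff_exp.comp (contDiff_const.mul h3))
    apply ContDiff.sum
    intro i _
    exact (contDiff_apply ℝ ℂ i.succ).norm_sq ℝ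

lemma fderiv_rho (m : ℕ) (s : ℝ) (x v : Fin (n + 2) → ℂ) :
    fderiv ℝ (rho n m s) x v = r1 m s x v := by
  have h1 : DifferentiableAt ℝ (rho n m s) x :=
    (contDiff_rho m s).differentiable (by simp) x
  rw [← h1.lineDeriv_eq_fderiv]
  have h2 := (line_rho m s x v 0).deriv
  rw [zero_smul, add_zero] at h2
  exact h2

lemma r1_zero (m : ℕ) (s : ℝ) (x : Fin (n + 2) → ℂ) (hx : 0 ≤ rho n m s x) :
    ∃ v, r1 m s x v ≠ 0 := by
  by_cases hN : NN x = 0
  · refine ⟨x, ?_⟩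
    have hx0 : 1 ≤ ‖x 0‖ ^ 2 := by
      rw [rho_eq, hN] at hx; linarith
    have h1 : N1 x x = 2 * NN x := by
      unfold N1 NN
      rw [Finset.mul_sum]
      simp
    unfold r1
    rw [h1, hN, real_inner_self_eq_norm_sq]
    simp only [mul_zero, add_zero]
    positivity
  · refine ⟨Function.update x 0 0, ?_⟩
    have hN' : 0 < NN x := lt_of_le_of_ne (NN_nonneg x) (Ne.symm hN)
    have h1 : N1 x (Function.update x 0 0) = 2 * NN x := by
      unfold N1 NN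
      rw [Finset.mul_sum]
      refine Finset.sum_congr rfl fun i _ => ?_
      rw [Function.update_of_ne (Fin.succ_ne_zero i), real_inner_self_eq_norm_sq]
    have h2 : u1 m s (x 0) 0 = 0 := by
      unfold u1; simp
    unfold r1
    rw [h1, Function.update_self, h2, inner_zero_right]
    simp only [mul_zero, zero_mul, zero_add]
    have := Real.exp_pos (2 * uu m s (x 0))
    positivity

lemma frontier_sub (m : ℕ) (s : ℝ) (x : Fin (n + 2) → ℂ) (hx : x ∈ frontier {x | rho n m s x < 0}) :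
    rho n m s x = 0 :=
  frontier_lt_subset_eq (contDiff_rho m s).continuous continuous_const hx

/-- the difference to `|x|² - 1` is `C¹`-small -/
lemma close_C1 {m : ℕ} {s κ e : ℝ} (hκ : 0 ≤ κ)
    (hu : ∀ z a : ℂ, |u1 m s z a| ≤ κ * ‖a‖) (x : Fin (n + 2) → ℂ) (hx : nsq x ≤ 1)
    (he1 : 1 ≤ Real.exp (2 * uu m s (x 0))) (he : Real.exp (2 * uu m s (x 0)) ≤ 1 + e)
    (he2 : e ≤ 1) :
    |rho n m s x - (nsq x - 1)| ≤ e ∧
      ‖fderiv ℝ (fun x => rho n m s x - (nsq x - 1)) x‖ ≤ 4 * κ + 2 * (n + 1) * e := by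
  have hN : NN x ≤ 1 := by
    rw [nsq_eq] at hx
    nlinarith [sq_nonneg ‖x 0‖]
  have hN0 := NN_nonneg x
  have he0 : 0 ≤ e := by linarith
  have hxi : ∀ i : Fin (n + 1), ‖x i.succ‖ ≤ 1 := by
    intro i
    have h1 : ‖x i.succ‖ ^ 2 ≤ NN x :=
      Finset.single_le_sum (f := fun i : Fin (n + 1) => ‖x i.succ‖ ^ 2)
        (fun _ _ => by positivity) (Finset.mem_univ i)
    nlinarith [norm_nonneg (x i.succ)]
  constructor
  · rw [rho_eq, nsq_eq, abs_le]
    constructor <;> nlinarith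
  · have hns : ContDiff ℝ ∞ (fun x : Fin (n + 2) → ℂ => nsq x) := by
      unfold nsq
      apply ContDiff.sum
      intro i _
      exact (contDiff_apply ℝ ℂ i).norm_sq ℝ
    have hdiff : DifferentiableAt ℝ (fun x => rho n m s x - (nsq x - 1)) x :=
      ((contDiff_rho m s).sub (hns.sub contDiff_const)).differentiable (by simp) x
    refine ContinuousLinearMap.opNorm_le_bound _ (by positivity) fun v => ?_
    rw [← hdiff.lineDeriv_eq_fderiv]
    have h1 : HasDerivAt (fun σ : ℝ => nsq (x + σ • v)) (2 * ⟪x 0, v 0⟫_ℝ + N1 x v) 0 := by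
      have h2 := (hasDerivAt_line (x 0) (v 0) 0).norm_sq.add (line_NN x v 0)
      simp only [zero_smul, add_zero] at h2
      refine h2.congr_of_eventuallyEq (Filter.Eventually.of_forall fun σ => ?_)
      change nsq (x + σ • v) = ‖x 0 + σ • v 0‖ ^ 2 + NN (x + σ • v)
      rw [nsq_eq]
      rfl
    have h3 := ((line_rho m s x v 0).sub (h1.sub_const 1)).deriv
    have h4 : lineDeriv ℝ (fun x => rho n m s x - (nsq x - 1)) x v =
        r1 m s x v - (2 * ⟪x 0, v 0⟫_ℝ + N1 x v) := by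
      rw [zero_smul, add_zero] at h3
      exact h3
    rw [h4]
    have h5 : r1 m s x v - (2 * ⟪x 0, v 0⟫_ℝ + N1 x v) =
        Real.exp (2 * uu m s (x 0)) * (2 * u1 m s (x 0) (v 0)) * NN x +
          (Real.exp (2 * uu m s (x 0)) - 1) * N1 x v := by
      unfold r1; ring
    rw [h5, Real.norm_eq_abs]
    have h6 : |N1 x v| ≤ 2 * (n + 1) * ‖v‖ := by
      unfold N1
      calc |∑ i : Fin (n + 1), 2 * ⟪x i.succ, v i.succ⟫_ℝ|
          ≤ ∑ i : Fin (n + 1), |2 * ⟪x i.succ, v i.succ⟫_ℝ| := Finset.abs_sum_le_sum_abs _ _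
        _ ≤ ∑ _i : Fin (n + 1), 2 * ‖v‖ := by
            refine Finset.sum_le_sum fun i _ => ?_
            rw [abs_mul, abs_two]
            gcongr
            calc |⟪x i.succ, v i.succ⟫_ℝ| ≤ ‖x i.succ‖ * ‖v i.succ‖ := abs_real_inner_le_norm _ _
              _ ≤ 1 * ‖v‖ := by
                  gcongr
                  · exact hxi i
                  · exact norm_le_pi_norm v _
              _ = ‖v‖ := one_mul _
        _ = _ := by
            rw [Finset.sum_const, Finset.card_univ, Fintype.card_fin, nsmul_eq_mul]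
            push_cast; ring
    have h7 : |u1 m s (x 0) (v 0)| ≤ κ * ‖v‖ := by
      refine (hu _ _).trans ?_
      gcongr
      exact norm_le_pi_norm v _
    have h8 : |Real.exp (2 * uu m s (x 0)) - 1| ≤ e := by
      rw [abs_le]; constructor <;> linarith
    calc _ ≤ |Real.exp (2 * uu m s (x 0)) * (2 * u1 m s (x 0) (v 0)) * NN x| +
          |(Real.exp (2 * uu m s (x 0)) - 1) * N1 x v| := abs_add_le _ _
      _ ≤ 2 * (2 * (κ * ‖v‖)) * 1 + e * (2 * (n + 1) * ‖v‖) := by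
          rw [abs_mul, abs_mul, abs_mul, abs_mul, abs_two, Real.abs_exp, abs_of_nonneg hN0]
          gcongr
          linarith
      _ = _ := by ring

end Pool.Agent.U500.Inst
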