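import Mathlib

set_option autoImplicit false

/-!
# Averages over roots of unity, and a two-constants estimate
-/

open Metric Set

namespace Pool.Agent.U500.Inst

/-- the average over the `m`-th roots of unity approximates the value at the centre -/
lemma avg_roots {f : ℂ → ℂ} {s C : ℝ} (hs : 0 < s) (hf : DiffContOnCl ℂ f (ball 0 (2 * s)))
    (hC : ∀ z ∈ closedBall (0 : ℂ) (2 * s), ‖f z‖ ≤ C) {m : ℕ} (hm : 0 < m) {ω : ℂ}
    (hω : IsPrimitiveRoot ω m) :
    ‖(∑ j ∈ Finset.range m, f (s * ω ^ j)) / m - f 0‖ ≤ 2 * C * (1 / 2) ^ m := by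
  have hω1 : ‖ω‖ = 1 := hω.norm'_eq_one hm.ne'
  have hmC : (m : ℂ) ≠ 0 := by exact_mod_cast hm.ne'
  set c : ℕ → ℂ := fun k => (k.factorial : ℂ)⁻¹ * iteratedDeriv k f 0 with hc
  have hcb : ∀ k, ‖c k‖ ≤ C / (2 * s) ^ k := by
    intro k
    have h1 := Complex.norm_iteratedDeriv_le_of_forall_mem_sphere_norm_le k
      (by positivity : 0 < 2 * s) hf (fun z hz => hC z (sphere_subset_closedBall hz))
    have hk : (0 : ℝ) < k.factorial := by exact_mod_cast k.factorial_pos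
    rw [hc]
    simp only [norm_mul, norm_inv, Complex.norm_natCast]
    rw [inv_mul_le_iff₀ hk]
    refine h1.trans (le_of_eq ?_)
    ring
  have hz : ∀ j : ℕ, ‖(s : ℂ) * ω ^ j‖ = s := by
    intro j
    rw [norm_mul, norm_pow, hω1, one_pow, mul_one, Complex.norm_real, Real.norm_of_nonneg hs.le]
  have hsum : ∀ j : ℕ, HasSum (fun k => c k * ((s : ℂ) * ω ^ j) ^ k) (f (s * ω ^ j)) := by
    intro j
    have h1 := Complex.hasSum_taylorSeries_on_ball (z := (s : ℂ) * ω ^ j) (c := 0) (r := 2 * s)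
      hf.differentiableOn (by rw [mem_ball_zero_iff, hz]; linarith)
    have h2 : (fun k => c k * ((s : ℂ) * ω ^ j) ^ k) =
        fun n => (n.factorial : ℂ)⁻¹ • ((s : ℂ) * ω ^ j - 0) ^ n • iteratedDeriv n f 0 := by
      funext k
      simp only [hc, smul_eq_mul, sub_zero]
      ring
    rw [h2]
    exact h1
  have hterm : ∀ j k : ℕ, ‖c k * ((s : ℂ) * ω ^ j) ^ k‖ ≤ C * (1 / 2) ^ k := by
    intro j k
    rw [norm_mul, norm_pow, hz]
    calc ‖c k‖ * s ^ k ≤ C / (2 * s) ^ k * s ^ k := by gcongr; exact hcb k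
      _ = C * (1 / 2) ^ k := by
        rw [mul_pow, one_div, inv_pow]
        field_simp
  have htail : ∀ j : ℕ, ‖f (s * ω ^ j) - ∑ k ∈ Finset.range m, c k * ((s : ℂ) * ω ^ j) ^ k‖ ≤
      2 * C * (1 / 2) ^ m := by
    intro j
    have h1 := (hasSum_nat_add_iff' m).2 (hsum j)
    have h2 : HasSum (fun k => C * (1 / 2) ^ (k + m)) (2 * C * (1 / 2 : ℝ) ^ m) := by
      have h3 := (hasSum_geometric_two).mul_left (C * (1 / 2 : ℝ) ^ m)
      have h4 : (fun k => C * (1 / 2 : ℝ) ^ (k + m)) =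
          fun k => C * (1 / 2 : ℝ) ^ m * (1 / 2) ^ k := by
        funext k
        rw [pow_add]
        ring
      rw [h4, show 2 * C * (1 / 2 : ℝ) ^ m = C * (1 / 2) ^ m * 2 by ring]
      exact h3
    exact h1.norm_le_of_bounded h2 fun k => hterm j (k + m)
  have horth : ∑ j ∈ Finset.range m, ∑ k ∈ Finset.range m, c k * ((s : ℂ) * ω ^ j) ^ k =
      m * f 0 := by
    rw [Finset.sum_comm]
    rw [Finset.sum_eq_single_of_mem 0 (Finset.mem_range.2 hm)]
    · have : c 0 = f 0 := by simp [hc]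
      simp [this]
    · intro k hk hk0
      have h1 : ∑ j ∈ Finset.range m, c k * ((s : ℂ) * ω ^ j) ^ k =
          c k * (s : ℂ) ^ k * ∑ j ∈ Finset.range m, (ω ^ k) ^ j := by
        rw [Finset.mul_sum]
        refine Finset.sum_congr rfl fun j _ => ?_
        rw [mul_pow, ← pow_mul, ← pow_mul, mul_comm j k]
        ring
      rw [h1]
      have h2 : ω ^ k ≠ 1 := hω.pow_ne_one_of_pos_of_lt (by omega) (Finset.mem_range.1 hk)
      have h3 : ∑ j ∈ Finset.range m, (ω ^ k) ^ j = 0 := by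
        rw [geom_sum_eq h2, ← pow_mul, mul_comm k m, pow_mul, hω.pow_eq_one, one_pow, sub_self,
          zero_div]
      rw [h3, mul_zero]
  have hkey : (∑ j ∈ Finset.range m, f (s * ω ^ j)) / m - f 0 =
      (∑ j ∈ Finset.range m, (f (s * ω ^ j) -
        ∑ k ∈ Finset.range m, c k * ((s : ℂ) * ω ^ j) ^ k)) / m := by
    rw [Finset.sum_sub_distrib, horth]
    field_simp
  rw [hkey, norm_div, Complex.norm_natCast, div_le_iff₀ (by exact_mod_cast hm)]
  calc _ ≤ ∑ j ∈ Finset.range m, ‖f (s * ω ^ j) -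
        ∑ k ∈ Finset.range m, c k * ((s : ℂ) * ω ^ j) ^ k‖ := norm_sum_le _ _
    _ ≤ ∑ _j ∈ Finset.range m, 2 * C * (1 / 2) ^ m := Finset.sum_le_sum fun j _ => htail j
    _ = 2 * C * (1 / 2) ^ m * m := by rw [Finset.sum_const, Finset.card_range, nsmul_eq_mul]; ring

/-- two-constants estimate for an annulus -/
lemma two_const {E : ℂ → ℂ} {r₁ w₀ r₂ r₃ M ε : ℝ} (h1 : 0 < r₁) (h12 : r₁ < w₀) (h23 : w₀ < r₂)
    (h34 : r₂ < r₃) (hE : DifferentiableOn ℂ E (ball 0 r₃)) (hM : ∀ w ∈ ball (0 : ℂ) r₃, ‖E w‖ ≤ M)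
    (hε : ∀ w : ℂ, ‖w‖ = r₁ → ‖E w‖ ≤ ε) :
    ‖E w₀‖ ≤ ε ^ (1 - (Real.log w₀ - Real.log r₁) / (Real.log r₂ - Real.log r₁)) *
      M ^ ((Real.log w₀ - Real.log r₁) / (Real.log r₂ - Real.log r₁)) := by
  have hw : 0 < w₀ := h1.trans h12
  have hr2 : 0 < r₂ := hw.trans h23
  have hr3 : 0 < r₃ := hr2.trans h34
  have hlu : Real.log r₁ < Real.log r₂ := Real.log_lt_log h1 (h12.trans h23)
  have hmem : ∀ z : ℂ, z.re ≤ Real.log r₂ → Complex.exp z ∈ ball (0 : ℂ) r₃ := by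
    intro z hz
    rw [mem_ball_zero_iff, Complex.norm_exp]
    calc Real.exp z.re ≤ Real.exp (Real.log r₂) := Real.exp_le_exp.2 hz
      _ = r₂ := Real.exp_log hr2
      _ < r₃ := h34
  have hz0 : (Complex.log w₀).re = Real.log w₀ := by
    rw [Complex.log_re, Complex.norm_real, Real.norm_of_nonneg hw.le]
  have key := Complex.HadamardThreeLines.norm_le_interp_of_mem_verticalClosedStrip'
    (f := fun z => E (Complex.exp z)) (z := Complex.log w₀) (a := ε) (b := M) hlu ?_ ?_ ?_ ?_ ?_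
  · rw [hz0] at key
    have h5 : Complex.exp (Complex.log (w₀ : ℂ)) = w₀ :=
      Complex.exp_log (by exact_mod_cast hw.ne')
    simpa only [h5] using key
  · rw [Complex.HadamardThreeLines.verticalClosedStrip, mem_preimage, hz0]
    exact ⟨(Real.log_lt_log h1 h12).le, (Real.log_lt_log hw h23).le⟩
  · apply DifferentiableOn.diffContOnCl
    have hsub : closure (Complex.HadamardThreeLines.verticalStrip (Real.log r₁) (Real.log r₂)) ⊆
        {z : ℂ | z.re ≤ Real.log r₂} := by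
      apply closure_minimal
      · intro z hz
        exact hz.2.le
      · exact isClosed_le Complex.continuous_re continuous_const
    intro z hz
    have h6 := hmem z (hsub hz)
    exact ((hE.differentiableAt (isOpen_ball.mem_nhds h6)).comp z
      Complex.differentiable_exp.differentiableAt).differentiableWithinAt
  · refine ⟨M, ?_⟩
    rintro _ ⟨z, hz, rfl⟩
    exact hM _ (hmem z hz.2)
  · intro z hz
    apply hε
    rw [Complex.norm_exp, show z.re = Real.log r₁ from hz, Real.exp_log h1]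
  · intro z hz
    exact hM _ (hmem z (le_of_eq hz))

/-- the exponent in the two-constants estimate stays away from `1` -/
lemma theta_bound {t : ℝ} (ht : 0 < t) (ht1 : t ≤ 1 / 400) :
    1 / 40 ≤ 1 - (Real.log √(1 - 2 * t) - Real.log √(1 - 20 * t)) /
      (Real.log √(1 - 3 / 2 * t) - Real.log √(1 - 20 * t)) ∧
    (Real.log √(1 - 2 * t) - Real.log √(1 - 20 * t)) /
      (Real.log √(1 - 3 / 2 * t) - Real.log √(1 - 20 * t)) ≤ 1 ∧
    0 ≤ (Real.log √(1 - 2 * t) - Real.log √(1 - 20 * t)) /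
      (Real.log √(1 - 3 / 2 * t) - Real.log √(1 - 20 * t)) := by
  rw [Real.log_sqrt (by linarith), Real.log_sqrt (by linarith), Real.log_sqrt (by linarith)]
  have e1 : 0 < 1 - 20 * t := by linarith
  have e2 : 0 < 1 - 2 * t := by linarith
  have e3 : 0 < 1 - 3 / 2 * t := by linarith
  have h1 : Real.log (1 - 20 * t) < Real.log (1 - 2 * t) := Real.log_lt_log e1 (by linarith)
  have h2 : Real.log (1 - 2 * t) < Real.log (1 - 3 / 2 * t) := Real.log_lt_log e2 (by linarith)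
  have h3 : t / 2 ≤ Real.log (1 - 3 / 2 * t) - Real.log (1 - 2 * t) := by
    rw [← Real.log_div e3.ne' e2.ne']
    have h4 := Real.one_sub_inv_le_log_of_pos (x := (1 - 3 / 2 * t) / (1 - 2 * t)) (by positivity)
    refine le_trans ?_ h4
    rw [inv_div, le_sub_iff_add_le, ← le_sub_iff_add_le', div_le_iff₀ e3]
    nlinarith
  have h5 : Real.log (1 - 3 / 2 * t) - Real.log (1 - 20 * t) ≤ 20 * t := by
    rw [← Real.log_div e3.ne' e1.ne']
    have h6 := Real.log_le_sub_one_of_pos (x := (1 - 3 / 2 * t) / (1 - 20 * t)) (by positivity)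
    refine h6.trans ?_
    rw [sub_le_iff_le_add, div_le_iff₀ e1]
    nlinarith
  have h7 : 0 < Real.log (1 - 3 / 2 * t) / 2 - Real.log (1 - 20 * t) / 2 := by linarith
  refine ⟨?_, ?_, ?_⟩
  · rw [le_sub_iff_add_le, ← le_sub_iff_add_le', div_le_iff₀ h7]
    nlinarith
  · rw [div_le_one h7]
    linarith
  · apply div_nonneg <;> linarith

/-- The main estimate: a family of holomorphic functions `h z` which solves the equation
`(w₀ - w) / (1 - w₀ w) h 0 w = 1` cannot be bounded by `C` if `m` is large. -/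
lemma main_est {h : ℂ → ℂ → ℂ} {s t w₀ C : ℝ} (hs : 0 < s) (ht : 0 < t) (ht1 : t ≤ 1 / 400)
    (hw0 : w₀ = √(1 - 2 * t)) {m : ℕ} (hm : 0 < m) {ω : ℂ} (hω : IsPrimitiveRoot ω m)
    (h1 : ∀ j < m, DifferentiableOn ℂ (h (s * ω ^ j)) (ball 0 √(1 - t)))
    (h1b : ∀ j < m, ∀ w ∈ ball (0 : ℂ) √(1 - t), ‖h (s * ω ^ j) w‖ ≤ C)
    (h2 : ∀ w : ℂ, ‖w‖ ^ 2 < 1 - 18 * t → DiffContOnCl ℂ (fun z => h z w) (ball 0 (2 * s)))
    (h2b : ∀ w : ℂ, ‖w‖ ^ 2 < 1 - 18 * t → ∀ z ∈ closedBall (0 : ℂ) (2 * s), ‖h z w‖ ≤ C)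
    (h3 : ∀ w : ℂ, ‖w‖ ^ 2 < 1 - 18 * t → (w₀ - w) / (1 - w₀ * w) * h 0 w = 1)
    (hC1 : 2 * C * (1 / 2) ^ m ≤ 1) :
    1 ≤ (2 * C * (1 / 2) ^ m) ^ (1 / 40 : ℝ) * (C + 1) := by
  have hC0 : 0 ≤ C := (norm_nonneg _).trans (h1b 0 hm 0 (mem_ball_self (by
    apply Real.sqrt_pos.2; linarith)))
  have hw0p : 0 < w₀ := by rw [hw0]; apply Real.sqrt_pos.2; linarith
  have hw0s : w₀ ^ 2 = 1 - 2 * t := by rw [hw0, Real.sq_sqrt (by linarith)]
  have hw01 : w₀ < 1 := by nlinarith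
  have hr3 : √(1 - t) < 1 := by
    rw [Real.sqrt_lt' one_pos]; linarith
  have hden : ∀ w : ℂ, ‖w‖ < 1 → 1 - (w₀ : ℂ) * w ≠ 0 := by
    intro w hw h0
    have h4 : ‖(w₀ : ℂ) * w‖ = 1 := by
      rw [← sub_eq_zero.1 h0, norm_one]
    rw [norm_mul, Complex.norm_real, Real.norm_of_nonneg hw0p.le] at h4
    nlinarith [norm_nonneg w]
  have hmob : ∀ w : ℂ, ‖w‖ < 1 → ‖((w₀ : ℂ) - w) / (1 - w₀ * w)‖ ≤ 1 := by
    intro w hw
    rw [norm_div]
    apply div_le_one_of_le₀ _ (norm_nonneg _)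
    rw [← abs_of_nonneg (norm_nonneg ((w₀ : ℂ) - w)), ← abs_of_nonneg (norm_nonneg (1 - (w₀ : ℂ) * w)),
      ← sq_le_sq, ← Complex.normSq_eq_norm_sq, ← Complex.normSq_eq_norm_sq, Complex.normSq_apply,
      Complex.normSq_apply]
    have h5 : w.re ^ 2 + w.im ^ 2 < 1 := by
      have := Complex.normSq_eq_norm_sq w
      rw [Complex.normSq_apply] at this
      nlinarith [norm_nonneg w]
    simp only [Complex.sub_re, Complex.sub_im, Complex.one_re, Complex.one_im, Complex.mul_re,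
      Complex.mul_im, Complex.ofReal_re, Complex.ofReal_im]
    nlinarith
  set Q : ℂ → ℂ := fun w => (∑ j ∈ Finset.range m, h (s * ω ^ j) w) / m with hQ
  set E : ℂ → ℂ := fun w => ((w₀ : ℂ) - w) / (1 - w₀ * w) * Q w - 1 with hE
  have hmR : (0 : ℝ) < m := by exact_mod_cast hm
  have hQb : ∀ w ∈ ball (0 : ℂ) √(1 - t), ‖Q w‖ ≤ C := by
    intro w hw
    rw [hQ]
    simp only [norm_div, Complex.norm_natCast]
    rw [div_le_iff₀ hmR]
    calc _ ≤ ∑ j ∈ Finset.range m, ‖h (s * ω ^ j) w‖ := norm_sum_le _ _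
      _ ≤ ∑ _j ∈ Finset.range m, C :=
        Finset.sum_le_sum fun j hj => h1b j (Finset.mem_range.1 hj) w hw
      _ = C * m := by rw [Finset.sum_const, Finset.card_range, nsmul_eq_mul]; ring
  have hEd : DifferentiableOn ℂ E (ball 0 √(1 - t)) := by
    intro w hw
    have hw1 : ‖w‖ < 1 := (mem_ball_zero_iff.1 hw).trans hr3
    have a1 : DifferentiableAt ℂ (fun w : ℂ => ((w₀ : ℂ) - w) / (1 - w₀ * w)) w := by
      exact DifferentiableAt.fun_div (by fun_prop) (by fun_prop) (hden w hw1)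
    have a2 : DifferentiableAt ℂ Q w := by
      apply DifferentiableAt.div_const
      apply DifferentiableAt.fun_sum
      intro j hj
      exact (h1 j (Finset.mem_range.1 hj)).differentiableAt (isOpen_ball.mem_nhds hw)
    exact ((a1.mul a2).sub_const 1).differentiableWithinAt
  have hEM : ∀ w ∈ ball (0 : ℂ) √(1 - t), ‖E w‖ ≤ C + 1 := by
    intro w hw
    have hw1 : ‖w‖ < 1 := (mem_ball_zero_iff.1 hw).trans hr3
    calc ‖E w‖ ≤ ‖((w₀ : ℂ) - w) / (1 - w₀ * w) * Q w‖ + ‖(1 : ℂ)‖ := norm_sub_le _ _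
      _ ≤ 1 * C + 1 := by
        rw [norm_mul, norm_one]
        gcongr
        · exact hmob w hw1
        · exact hQb w hw
      _ = C + 1 := by ring
  have hEs : ∀ w : ℂ, ‖w‖ = √(1 - 20 * t) → ‖E w‖ ≤ 2 * C * (1 / 2) ^ m := by
    intro w hw
    have hw2 : ‖w‖ ^ 2 < 1 - 18 * t := by
      rw [hw, Real.sq_sqrt (by linarith)]; linarith
    have hw1 : ‖w‖ < 1 := by nlinarith [norm_nonneg w]
    have b1 : E w = ((w₀ : ℂ) - w) / (1 - w₀ * w) * (Q w - h 0 w) := by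
      rw [hE]
      simp only
      rw [mul_sub, h3 w hw2]
    rw [b1, norm_mul]
    calc _ ≤ 1 * (2 * C * (1 / 2) ^ m) := by
          gcongr
          · exact hmob w hw1
          · exact avg_roots hs (h2 w hw2) (h2b w hw2) hm hω
      _ = _ := one_mul _
  have hfin := two_const (E := E) (r₁ := √(1 - 20 * t)) (w₀ := w₀) (r₂ := √(1 - 3 / 2 * t))
    (r₃ := √(1 - t)) (M := C + 1) (ε := 2 * C * (1 / 2) ^ m)
    (Real.sqrt_pos.2 (by linarith)) (by rw [hw0]; exact Real.sqrt_lt_sqrt (by linarith) (by linarith))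
    (by rw [hw0]; exact Real.sqrt_lt_sqrt (by linarith) (by linarith))
    (Real.sqrt_lt_sqrt (by linarith) (by linarith)) hEd hEM hEs
  have hE0 : ‖E w₀‖ = 1 := by
    rw [hE]
    simp
  rw [hE0] at hfin
  obtain ⟨c1, c2, c3⟩ := theta_bound ht ht1
  rw [← hw0] at c1 c2 c3
  refine hfin.trans ?_
  have hε0 : 0 ≤ 2 * C * (1 / 2 : ℝ) ^ m := by positivity
  gcongr ?_ * ?_
  · exact Real.rpow_le_rpow_of_exponent_ge' hε0 hC1 (by norm_num) c1
  · calc (C + 1) ^ ((Real.log w₀ - Real.log √(1 - 20 * t)) /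
        (Real.log √(1 - 3 / 2 * t) - Real.log √(1 - 20 * t))) ≤ (C + 1) ^ (1 : ℝ) :=
          Real.rpow_le_rpow_of_exponent_le (by linarith) c2
      _ = C + 1 := Real.rpow_one _

end Pool.Agent.U500.Inst
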