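import Mathlib
import Pool.Agent.U500.Inst.Rho
import Pool.Agent.U500.Inst.Avg

set_option autoImplicit false

/-!
# Unbounded corona constants on `C¹`-small perturbations of the ball
-/

open Metric Set
open scoped ContDiff InnerProductSpace

namespace Pool.Agent.U500.Inst

variable {n : ℕ}

/-! ### The domain -/

lemma one_le_exp_uu {m : ℕ} (hm : 0 < m) (s : ℝ) (z : ℂ) : 1 ≤ Real.exp (2 * uu m s z) := by
  rw [Real.one_le_exp_iff]
  have := uu_nonneg hm s z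
  linarith

lemma dom_sub_ball {m : ℕ} (hm : 0 < m) {s : ℝ} {x : Fin (n + 2) → ℂ} (hx : rho n m s x < 0) :
    nsq x < 1 := by
  rw [rho_eq] at hx
  rw [nsq_eq]
  have h1 := one_le_exp_uu hm s (x 0)
  have h2 := NN_nonneg x
  nlinarith

lemma isOpen_dom (m : ℕ) (s : ℝ) : IsOpen {x : Fin (n + 2) → ℂ | rho n m s x < 0} :=
  isOpen_lt (contDiff_rho m s).continuous continuous_const

lemma rho_zero_neg (m : ℕ) (s : ℝ) : rho n m s 0 < 0 := by
  rw [rho_eq]
  have : NN (0 : Fin (n + 2) → ℂ) = 0 := by unfold NN; simp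
  rw [this]
  simp

lemma connected_dom (m : ℕ) (s : ℝ) : IsConnected {x : Fin (n + 2) → ℂ | rho n m s x < 0} := by
  refine IsPathConnected.isConnected ⟨0, rho_zero_neg m s, ?_⟩
  intro x hx
  have hx' : rho n m s x < 0 := hx
  rw [rho_eq] at hx'
  have he := Real.exp_pos (2 * uu m s (x 0))
  have hN := NN_nonneg x
  set y : Fin (n + 2) → ℂ := fun i => if i = 0 then x 0 else 0 with hy
  have hy0 : y 0 = x 0 := by simp [hy]
  have hys : ∀ i : Fin (n + 1), y i.succ = 0 := fun i => by simp [hy, Fin.succ_ne_zero]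
  have h1 : JoinedIn {x : Fin (n + 2) → ℂ | rho n m s x < 0} 0 y := by
    apply JoinedIn.of_segment_subset
    rintro _ ⟨a, b, ha, hb, hab, rfl⟩
    have hb1 : b ≤ 1 := by linarith
    change rho n m s (a • 0 + b • y) < 0
    rw [rho_eq]
    have e1 : NN (a • (0 : Fin (n + 2) → ℂ) + b • y) = 0 := by
      unfold NN
      simp [hys]
    have e2 : ‖(a • (0 : Fin (n + 2) → ℂ) + b • y) 0‖ ^ 2 = b ^ 2 * ‖x 0‖ ^ 2 := by
      simp only [smul_zero, zero_add, Pi.smul_apply, hy0, norm_smul, Real.norm_eq_abs, mul_pow,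
        sq_abs]
    rw [e1, e2]
    have h2 : b ^ 2 * ‖x 0‖ ^ 2 ≤ 1 * ‖x 0‖ ^ 2 := by
      gcongr
      nlinarith
    have h3 : 0 ≤ Real.exp (2 * uu m s (x 0)) * NN x := by positivity
    linarith
  have h2 : JoinedIn {x : Fin (n + 2) → ℂ | rho n m s x < 0} y x := by
    apply JoinedIn.of_segment_subset
    rintro _ ⟨a, b, ha, hb, hab, rfl⟩
    have hb1 : b ≤ 1 := by linarith
    change rho n m s (a • y + b • x) < 0
    rw [rho_eq]
    have e0 : (a • y + b • x) 0 = x 0 := by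
      simp only [Pi.add_apply, Pi.smul_apply, hy0]
      rw [← add_smul, hab, one_smul]
    have e1 : NN (a • y + b • x) = b ^ 2 * NN x := by
      unfold NN
      rw [Finset.mul_sum]
      refine Finset.sum_congr rfl fun i _ => ?_
      simp only [Pi.add_apply, Pi.smul_apply, hys, smul_zero, zero_add, norm_smul,
        Real.norm_eq_abs, mul_pow, sq_abs]
    rw [e0, e1]
    have h2 : b ^ 2 * NN x ≤ 1 * NN x := by
      gcongr
      nlinarith
    have h3 : Real.exp (2 * uu m s (x 0)) * (b ^ 2 * NN x) ≤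
        Real.exp (2 * uu m s (x 0)) * NN x := by
      gcongr
      linarith
    linarith
  exact h1.trans h2

/-! ### The data -/

/-- the two generators -/
noncomputable def dat (n : ℕ) (t w₀ : ℝ) (j : Fin 2) (x : Fin (n + 2) → ℂ) : ℂ :=
  if j = 0 then √(2 * t) * x 0 / (1 - w₀ * x 1) else (w₀ - x 1) / (1 - w₀ * x 1)

lemma sq1_le (x : Fin (n + 2) → ℂ) : ‖x 1‖ ^ 2 ≤ NN x :=
  Finset.single_le_sum (f := fun i : Fin (n + 1) => ‖x i.succ‖ ^ 2)
    (fun _ _ => by positivity) (Finset.mem_univ 0)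

lemma sum_dat {t w₀ : ℝ} (ht : 0 ≤ t) (x : Fin (n + 2) → ℂ) :
    ∑ j, ‖dat n t w₀ j x‖ ^ 2 =
      (2 * t * ‖x 0‖ ^ 2 + ‖(w₀ : ℂ) - x 1‖ ^ 2) / ‖1 - w₀ * x 1‖ ^ 2 := by
  rw [Fin.sum_univ_two]
  unfold dat
  simp only [if_true, one_ne_zero, if_false]
  rw [norm_div, norm_div, norm_mul, Complex.norm_real, Real.norm_of_nonneg (Real.sqrt_nonneg _),
    div_pow, div_pow, mul_pow, Real.sq_sqrt (by positivity), add_div]

lemma mob_id {t w₀ : ℝ} (hw : w₀ ^ 2 = 1 - 2 * t) (w : ℂ) :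
    ‖1 - (w₀ : ℂ) * w‖ ^ 2 - ‖(w₀ : ℂ) - w‖ ^ 2 = 2 * t * (1 - ‖w‖ ^ 2) := by
  rw [← Complex.normSq_eq_norm_sq, ← Complex.normSq_eq_norm_sq, ← Complex.normSq_eq_norm_sq,
    Complex.normSq_apply, Complex.normSq_apply, Complex.normSq_apply]
  simp only [Complex.sub_re, Complex.sub_im, Complex.one_re, Complex.one_im, Complex.mul_re,
    Complex.mul_im, Complex.ofReal_re, Complex.ofReal_im]
  linear_combination (w.re ^ 2 + w.im ^ 2 - 1) * hw

lemma den_pos {w₀ : ℝ} (h0 : 0 < w₀) {w : ℂ} (hw : w₀ * ‖w‖ < 1) : 0 < ‖1 - (w₀ : ℂ) * w‖ := by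
  have h1 := norm_sub_norm_le (1 : ℂ) ((w₀ : ℂ) * w)
  rw [norm_one, norm_mul, Complex.norm_real, Real.norm_of_nonneg h0.le] at h1
  linarith

lemma dat_le {t w₀ : ℝ} (ht : 0 < t) (hw : w₀ ^ 2 = 1 - 2 * t)
    (x : Fin (n + 2) → ℂ) (hx : nsq x ≤ 1) : ∑ j, ‖dat n t w₀ j x‖ ^ 2 ≤ 1 := by
  rw [sum_dat ht.le]
  rw [nsq_eq] at hx
  have h1 := sq1_le x
  have h2 := mob_id hw (x 1)
  apply div_le_one_of_le₀ _ (by positivity)
  nlinarith

lemma lt_dat {m : ℕ} (hm : 0 < m) {s t w₀ : ℝ} (hs : 0 < s) (hts : t = s ^ 2) (ht1 : t ≤ 1 / 400)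
    (h0 : 0 < w₀) (hw : w₀ ^ 2 = 1 - 2 * t)
    (x : Fin (n + 2) → ℂ) (hx : rho n m s x < 0) : 1 / 10 < ∑ j, ‖dat n t w₀ j x‖ ^ 2 := by
  have ht : 0 < t := by rw [hts]; positivity
  rw [sum_dat ht.le]
  have h1 := sq1_le x
  have h2 := mob_id hw (x 1)
  have hball := dom_sub_ball hm hx
  rw [nsq_eq] at hball
  have hx1 : ‖x 1‖ ^ 2 < 1 := by nlinarith [sq_nonneg ‖x 0‖]
  have hx1' : ‖x 1‖ < 1 := by nlinarith [norm_nonneg (x 1)]
  have hw1 : w₀ < 1 := by nlinarith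
  have hden : 0 < ‖1 - (w₀ : ℂ) * x 1‖ := den_pos h0 (by nlinarith [norm_nonneg (x 1)])
  -- lower bound of the denominator
  have h3 : t + (1 - ‖x 1‖ ^ 2) / 2 ≤ ‖1 - (w₀ : ℂ) * x 1‖ := by
    have h4 := norm_sub_norm_le (1 : ℂ) ((w₀ : ℂ) * x 1)
    rw [norm_one, norm_mul, Complex.norm_real, Real.norm_of_nonneg h0.le] at h4
    nlinarith [sq_nonneg (w₀ - ‖x 1‖)]
  set X := 1 - ‖x 1‖ ^ 2 with hX
  set d := ‖1 - (w₀ : ℂ) * x 1‖ with hd
  have hX0 : 0 < X := by linarith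
  have h5 : (t + X / 2) ^ 2 ≤ d ^ 2 := by gcongr
  rw [lt_div_iff₀ (by positivity)]
  have h6 : 2 * t * (X - ‖x 0‖ ^ 2) ≤ 8 / 9 * d ^ 2 := by
    refine le_trans ?_ (mul_le_mul_of_nonneg_left h5 (by norm_num : (0 : ℝ) ≤ 8 / 9))
    by_cases hz : ‖x 0‖ ≤ s / 2
    · have h7 := le_uu hm hs hz
      rw [← hts] at h7
      -- `e^{2u} ≥ e^{5.2 t}`
      have h8 : 1 + 5.2 * t ≤ Real.exp (2 * uu m s (x 0)) := by
        calc 1 + 5.2 * t ≤ Real.exp (5.2 * t) := by
              have := Real.add_one_le_exp (5.2 * t); linarith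
          _ ≤ _ := Real.exp_le_exp.2 (by linarith)
      rw [rho_eq] at hx
      have h9 : (1 + 5.2 * t) * (1 - X) < 1 := by
        have : (1 + 5.2 * t) * NN x ≤ Real.exp (2 * uu m s (x 0)) * NN x := by
          gcongr
          exact NN_nonneg x
        have : (1 + 5.2 * t) * ‖x 1‖ ^ 2 ≤ (1 + 5.2 * t) * NN x := by gcongr
        have : 1 - X = ‖x 1‖ ^ 2 := by rw [hX]; ring
        rw [this]
        nlinarith [sq_nonneg ‖x 0‖]
      have h10 : 4 * t ≤ X := by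
        by_contra hcon
        push Not at hcon
        nlinarith
      have h11 : 0 ≤ ‖x 0‖ ^ 2 := by positivity
      have h12 : 0 ≤ (X - t) * (X - 4 * t) := mul_nonneg (by linarith) (by linarith)
      have h13 : 0 ≤ t * ‖x 0‖ ^ 2 := mul_nonneg ht.le h11
      have h14 : 2 * t * (X - ‖x 0‖ ^ 2) = 8 / 9 * (t + X / 2) ^ 2 -
          2 / 9 * ((X - t) * (X - 4 * t)) - 2 * (t * ‖x 0‖ ^ 2) := by ring
      rw [h14]
      linarith
    · push Not at hz
      have h7 : t / 4 ≤ ‖x 0‖ ^ 2 := by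
        rw [hts]
        nlinarith
      have h8 : 0 ≤ (5 * t - 2 * X) ^ 2 := sq_nonneg _
      have h9 : 0 ≤ t * (‖x 0‖ ^ 2 - t / 4) := mul_nonneg ht.le (by linarith)
      have h10 : 2 * t * (X - ‖x 0‖ ^ 2) = 8 / 9 * (t + X / 2) ^ 2 -
          1 / 18 * (5 * t - 2 * X) ^ 2 - 2 * (t * (‖x 0‖ ^ 2 - t / 4)) := by ring
      rw [h10]
      linarith
  have h7 : 0 < d ^ 2 := by positivity
  have h8 : ‖(w₀ : ℂ) - x 1‖ ^ 2 = d ^ 2 - 2 * t * X := by linarith
  rw [h8]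
  linarith

/-! ### The solutions -/

/-- the point `(z, w, 0, …, 0)` -/
noncomputable def vec (n : ℕ) (z w : ℂ) : Fin (n + 2) → ℂ := Fin.cons z (Fin.cons w 0)

lemma vec_zero (z w : ℂ) : vec n z w 0 = z := rfl

lemma vec_one (z w : ℂ) : vec n z w 1 = w := rfl

lemma NN_vec (z w : ℂ) : NN (vec n z w) = ‖w‖ ^ 2 := by
  unfold NN vec
  rw [Fin.sum_univ_succ]
  simp

lemma rho_vec (m : ℕ) (s : ℝ) (z w : ℂ) :
    rho n m s (vec n z w) = ‖z‖ ^ 2 + Real.exp (2 * uu m s z) * ‖w‖ ^ 2 - 1 := by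
  rw [rho_eq, NN_vec, vec_zero]

lemma diff_vec_left (w : ℂ) : Differentiable ℂ (fun z => vec n z w) := by
  rw [differentiable_pi]
  intro i
  refine Fin.cases ?_ (fun i => ?_) i
  · exact differentiable_id
  · exact differentiable_const _

lemma diff_vec_right (z : ℂ) : Differentiable ℂ (fun w => vec n z w) := by
  rw [differentiable_pi]
  intro i
  refine Fin.cases ?_ (fun i => ?_) i
  · exact differentiable_const _
  · refine Fin.cases ?_ (fun i => ?_) i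
    · exact differentiable_id
    · exact differentiable_const _

/-- every solution is large -/
lemma no_small {m : ℕ} (hm : 0 < m) {s t w₀ C : ℝ} (hs : 0 < s) (hts : t = s ^ 2)
    (ht1 : t ≤ 1 / 400) (hw0 : w₀ = √(1 - 2 * t)) (hC1 : 2 * C * (1 / 2) ^ m ≤ 1)
    (hC2 : (2 * C * (1 / 2) ^ m) ^ (1 / 40 : ℝ) * (C + 1) < 1)
    (h : Fin 2 → (Fin (n + 2) → ℂ) → ℂ) (hh : ∀ j, DifferentiableOn ℂ (h j) {x | rho n m s x < 0})
    (heq : ∀ x, rho n m s x < 0 → ∑ j, dat n t w₀ j x * h j x = 1) :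
    ∃ x, rho n m s x < 0 ∧ C < ‖h 1 x‖ := by
  by_contra hcon
  push Not at hcon
  have ht : 0 < t := by rw [hts]; positivity
  have hmem1 : ∀ (j : ℕ) (w : ℂ), w ∈ ball (0 : ℂ) √(1 - t) →
      rho n m s (vec n (s * Complex.exp (2 * Real.pi * Complex.I / m) ^ j) w) < 0 := by
    intro j w hw
    have hroot : (Complex.exp (2 * Real.pi * Complex.I / m) ^ j) ^ m = 1 := by
      rw [← pow_mul, mul_comm j m, pow_mul, (Complex.isPrimitiveRoot_exp m hm.ne').pow_eq_one,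
        one_pow]
    have hnorm : ‖Complex.exp (2 * Real.pi * Complex.I / m) ^ j‖ = 1 := by
      rw [norm_pow, (Complex.isPrimitiveRoot_exp m hm.ne').norm'_eq_one hm.ne', one_pow]
    rw [rho_vec, uu_zero hm hs.ne' hroot, mul_zero, Real.exp_zero, one_mul, norm_mul, hnorm,
      mul_one, Complex.norm_real, Real.norm_of_nonneg hs.le, ← hts]
    rw [mem_ball_zero_iff, Real.lt_sqrt (norm_nonneg _)] at hw
    linarith
  have hmem2 : ∀ w : ℂ, ‖w‖ ^ 2 < 1 - 18 * t → ∀ z ∈ closedBall (0 : ℂ) (2 * s),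
      rho n m s (vec n z w) < 0 := by
    intro w hw z hz
    rw [mem_closedBall_zero_iff] at hz
    have h1 := uu_le hm hs hz
    rw [← hts] at h1
    rw [rho_vec]
    have h2 : Real.exp (2 * uu m s z) ≤ Real.exp (13.6 * t) := Real.exp_le_exp.2 (by linarith)
    have h3 : Real.exp (13.6 * t) * (1 - 13.6 * t) ≤ 1 := by
      have h4 := Real.add_one_le_exp (-(13.6 * t))
      calc Real.exp (13.6 * t) * (1 - 13.6 * t) ≤ Real.exp (13.6 * t) * Real.exp (-(13.6 * t)) := by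
            gcongr
            linarith
        _ = 1 := by rw [← Real.exp_add]; simp
    have h5 : ‖z‖ ^ 2 ≤ 4 * t := by
      rw [hts]
      nlinarith [norm_nonneg z]
    have h6 : Real.exp (2 * uu m s z) * ‖w‖ ^ 2 ≤ Real.exp (13.6 * t) * ‖w‖ ^ 2 := by gcongr
    have h7 : Real.exp (13.6 * t) * ‖w‖ ^ 2 < Real.exp (13.6 * t) * (1 - 18 * t) :=
      mul_lt_mul_of_pos_left hw (Real.exp_pos _)
    have h8 : Real.exp (13.6 * t) * (1 - 18 * t) ≤ 1 - 4 * t := by
      have h9 : (1 - 18 * t) ≤ (1 - 13.6 * t) * (1 - 4 * t) := by nlinarith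
      calc Real.exp (13.6 * t) * (1 - 18 * t) ≤
          Real.exp (13.6 * t) * ((1 - 13.6 * t) * (1 - 4 * t)) := by gcongr
        _ = (Real.exp (13.6 * t) * (1 - 13.6 * t)) * (1 - 4 * t) := by ring
        _ ≤ 1 * (1 - 4 * t) := by
            gcongr
            linarith
        _ = _ := one_mul _
    linarith
  have hmain := main_est (h := fun z w => h 1 (vec n z w)) (C := C) hs ht ht1 hw0 hm
    (Complex.isPrimitiveRoot_exp m hm.ne') ?_ ?_ ?_ ?_ ?_ hC1
  · linarith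
  · intro j _ w hw
    have h1 := hmem1 j w hw
    exact (((hh 1).differentiableAt ((isOpen_dom m s).mem_nhds h1)).comp w
      (diff_vec_right _ w)).differentiableWithinAt
  · intro j _ w hw
    exact hcon _ (hmem1 j w hw)
  · intro w hw
    apply DifferentiableOn.diffContOnCl
    intro z hz
    have hz' : z ∈ closedBall (0 : ℂ) (2 * s) := closure_ball_subset_closedBall hz
    have h1 := hmem2 w hw z hz'
    exact (((hh 1).differentiableAt ((isOpen_dom m s).mem_nhds h1)).comp z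
      (diff_vec_left w z)).differentiableWithinAt
  · intro w hw z hz
    exact hcon _ (hmem2 w hw z hz)
  · intro w hw
    have h1 := heq _ (hmem2 w hw 0 (mem_closedBall_self (by positivity)))
    rw [Fin.sum_univ_two] at h1
    unfold dat at h1
    simpa [vec_zero, vec_one] using h1

/-- choice of `m` -/
lemma choose_m (C : ℝ) : ∃ m : ℕ, 0 < m ∧ 2 * C * (1 / 2) ^ m ≤ 1 ∧
    (2 * C * (1 / 2) ^ m) ^ (1 / 40 : ℝ) * (C + 1) < 1 := by
  have h1 : Filter.Tendsto (fun m : ℕ => 2 * C * (1 / 2 : ℝ) ^ m) Filter.atTop (nhds 0) := by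
    have := (tendsto_pow_atTop_nhds_zero_of_lt_one (r := (1 / 2 : ℝ)) (by norm_num)
      (by norm_num)).const_mul (2 * C)
    rwa [mul_zero] at this
  have h2 : Filter.Tendsto (fun m : ℕ => (2 * C * (1 / 2 : ℝ) ^ m) ^ (1 / 40 : ℝ) * (C + 1))
      Filter.atTop (nhds 0) := by
    have h3 := ((Real.continuousAt_rpow_const (0 : ℝ) (1 / 40 : ℝ)
      (Or.inr (by norm_num))).tendsto.comp h1).mul_const (C + 1)
    rw [Real.zero_rpow (by norm_num), zero_mul] at h3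
    exact h3
  obtain ⟨m, a1, a2, a3⟩ := ((h1.eventually (eventually_le_nhds one_pos)).and
    ((h2.eventually (eventually_lt_nhds one_pos)).and (Filter.eventually_gt_atTop 0))).exists
  exact ⟨m, a3, a1, a2⟩

end Pool.Agent.U500.Inst
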