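import Mathlib
import Pool.Agent.U500.Inst.Rho

set_option autoImplicit false

/-!
# Bounds of the second derivatives of the defining function
-/

open Metric Set
open scoped ContDiff InnerProductSpace

namespace Pool.Agent.U500.Inst

/-- constant in the bound of the second derivative -/
noncomputable def KK (m : ℕ) : ℝ := 1 + 4 ^ m * Real.exp (4 * m)

lemma KK_ge (m : ℕ) : 1 ≤ KK m := by
  unfold KK
  have : 0 ≤ (4 : ℝ) ^ m * Real.exp (4 * m) := by positivity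
  linarith

/-- powers of `z / s` against `gg` -/
lemma pow_le_gg {m : ℕ} (hm : 0 < m) (s : ℝ) (z : ℂ) {k : ℕ} (hk : k ≤ m - 1) :
    ‖ff m s z‖ * ‖z / s‖ ^ k ≤ KK m * gg m s z ∧ (‖z / s‖ ^ k) ^ 2 ≤ KK m * gg m s z := by
  have hg := gg_pos m s z
  have hf0 := norm_nonneg (ff m s z)
  by_cases hz : ‖z / s‖ ≤ 2
  · have h6 : ‖z / (s : ℂ)‖ ^ k ≤ 2 ^ m := by
      calc ‖z / (s : ℂ)‖ ^ k ≤ 2 ^ k := by gcongr
        _ ≤ 2 ^ m := pow_le_pow_right₀ (by norm_num) (by omega)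
    have h6' : 0 ≤ ‖z / (s : ℂ)‖ ^ k := by positivity
    have hE : Real.exp (4 * m) * Real.exp (-(4 * (m : ℝ))) = 1 := by
      rw [← Real.exp_add]; simp
    have h3 : 1 ≤ Real.exp (4 * m) * gg m s z := by
      rw [← hE]
      gcongr
      exact gg_ge m s z
    have h4 : (2 ^ m : ℝ) ^ 2 = 4 ^ m := by rw [← pow_mul, mul_comm, pow_mul]; norm_num
    have h7 : (‖z / (s : ℂ)‖ ^ k) ^ 2 ≤ 4 ^ m * (Real.exp (4 * m) * gg m s z) := by
      calc (‖z / (s : ℂ)‖ ^ k) ^ 2 ≤ (2 ^ m) ^ 2 := by gcongr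
        _ = 4 ^ m * 1 := by rw [h4, mul_one]
        _ ≤ _ := by gcongr
    have h8 : ‖ff m s z‖ ^ 2 ≤ gg m s z := by
      unfold gg
      have := Real.exp_pos (-(4 * (m : ℝ)))
      linarith
    constructor
    · calc ‖ff m s z‖ * ‖z / (s : ℂ)‖ ^ k ≤ ‖ff m s z‖ ^ 2 + (‖z / (s : ℂ)‖ ^ k) ^ 2 := by
            nlinarith [sq_nonneg (‖ff m s z‖ - ‖z / (s : ℂ)‖ ^ k)]
        _ ≤ gg m s z + 4 ^ m * (Real.exp (4 * m) * gg m s z) := add_le_add h8 h7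
        _ = _ := by unfold KK; ring
    · refine h7.trans ?_
      unfold KK
      nlinarith
  · push Not at hz
    set q := ‖z / (s : ℂ)‖ with hq
    have h7 : q ^ m ≤ 2 * ‖ff m s z‖ := by
      have h8 : q ^ m - 1 ≤ ‖ff m s z‖ := by
        have := norm_sub_norm_le ((z / (s : ℂ)) ^ m) 1
        rw [norm_one, norm_pow] at this
        exact this
      have h9 : 2 ≤ q ^ m := by
        calc (2 : ℝ) ≤ q := hz.le
          _ = q ^ 1 := (pow_one _).symm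
          _ ≤ q ^ m := pow_le_pow_right₀ (by linarith) hm
      linarith
    have h10 : q ^ m = q * q ^ (m - 1) := by
      rw [← pow_succ']
      congr 1
      omega
    have h11 : q ^ (m - 1) ≤ ‖ff m s z‖ := by
      have : 0 ≤ q ^ (m - 1) := by positivity
      nlinarith
    have h12 : q ^ k ≤ ‖ff m s z‖ := (pow_le_pow_right₀ (by linarith) hk).trans h11
    have h13 : 0 ≤ q ^ k := by positivity
    have h8 : ‖ff m s z‖ ^ 2 ≤ gg m s z := by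
      unfold gg
      have := Real.exp_pos (-(4 * (m : ℝ)))
      linarith
    have h14 : gg m s z ≤ KK m * gg m s z := by nlinarith [KK_ge m]
    constructor <;> nlinarith

lemma norm_ff1 (m : ℕ) {s : ℝ} (hs : 0 < s) (z : ℂ) :
    ‖ff1 m s z‖ = m * ‖z / s‖ ^ (m - 1) * (1 / s) := by
  unfold ff1
  rw [norm_mul, norm_mul, norm_pow, Complex.norm_natCast, norm_div (1 : ℂ), norm_one,
    Complex.norm_real, Real.norm_of_nonneg hs.le]

lemma norm_ff2 (m : ℕ) {s : ℝ} (hs : 0 < s) (z : ℂ) :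
    ‖ff2 m s z‖ ≤ m * (m * ‖z / s‖ ^ (m - 1 - 1) * (1 / s)) * (1 / s) := by
  unfold ff2
  rw [norm_mul, norm_mul, norm_mul, norm_mul, norm_pow, Complex.norm_natCast,
    Complex.norm_natCast, norm_div (1 : ℂ), norm_one, Complex.norm_real, Real.norm_of_nonneg hs.le]
  gcongr
  exact Nat.sub_le _ _

/-- bound of the second derivative of the profile, uniform in `s` -/
lemma u2_le {m : ℕ} (hm : 0 < m) {s : ℝ} (hs : 0 < s) (z a : ℂ) :
    |u2 m s z a| ≤ 8 * m * KK m ^ 2 * ‖a‖ ^ 2 := by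
  have hmR : (0 : ℝ) < m := by exact_mod_cast hm
  have hg := gg_pos m s z
  obtain ⟨p1, p2⟩ := pow_le_gg hm s z (k := m - 1) le_rfl
  obtain ⟨p3, _⟩ := pow_le_gg hm s z (k := m - 1 - 1) (Nat.sub_le _ _)
  have hK := KK_ge m
  have hf0 := norm_nonneg (ff m s z)
  set f := ‖ff m s z‖ with hf
  set g := gg m s z with hgdef
  set q1 := ‖z / (s : ℂ)‖ ^ (m - 1) with hq1
  set q2 := ‖z / (s : ℂ)‖ ^ (m - 1 - 1) with hq2
  have hq10 : 0 ≤ q1 := by positivity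
  have hq20 : 0 ≤ q2 := by positivity
  -- the three inner products
  have i1 : |⟪ff m s z, a * (a * ff2 m s z)⟫_ℝ| ≤ m ^ 2 * (f * q2) * ‖a‖ ^ 2 / s ^ 2 := by
    refine (abs_real_inner_le_norm _ _).trans ?_
    rw [norm_mul, norm_mul]
    calc f * (‖a‖ * (‖a‖ * ‖ff2 m s z‖)) ≤
        f * (‖a‖ * (‖a‖ * (m * (m * q2 * (1 / s)) * (1 / s)))) := by
          gcongr
          exact norm_ff2 m hs z
      _ = _ := by field_simp
  have i2 : |⟪a * ff1 m s z, a * ff1 m s z⟫_ℝ| ≤ m ^ 2 * q1 ^ 2 * ‖a‖ ^ 2 / s ^ 2 := by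
    rw [real_inner_self_eq_norm_sq, norm_mul, norm_ff1 m hs, abs_of_nonneg (by positivity), ← hq1]
    apply le_of_eq
    field_simp
  have i3 : |⟪ff m s z, a * ff1 m s z⟫_ℝ| ≤ m * (f * q1) * ‖a‖ / s := by
    refine (abs_real_inner_le_norm _ _).trans ?_
    rw [norm_mul, norm_ff1 m hs, ← hq1, ← hf]
    apply le_of_eq
    field_simp
  have j1 : m ^ 2 * (f * q2) * ‖a‖ ^ 2 / s ^ 2 ≤ m ^ 2 * (KK m * g) * ‖a‖ ^ 2 / s ^ 2 := by gcongr
  have j2 : m ^ 2 * q1 ^ 2 * ‖a‖ ^ 2 / s ^ 2 ≤ m ^ 2 * (KK m * g) * ‖a‖ ^ 2 / s ^ 2 := by gcongr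
  have j3 : m * (f * q1) * ‖a‖ / s ≤ m * (KK m * g) * ‖a‖ / s := by gcongr
  set A := ⟪ff m s z, a * (a * ff2 m s z)⟫_ℝ with hA
  set B := ⟪a * ff1 m s z, a * ff1 m s z⟫_ℝ with hB
  set D := ⟪ff m s z, a * ff1 m s z⟫_ℝ with hD
  have k1 : |A| ≤ m ^ 2 * (KK m * g) * ‖a‖ ^ 2 / s ^ 2 := i1.trans j1
  have k2 : |B| ≤ m ^ 2 * (KK m * g) * ‖a‖ ^ 2 / s ^ 2 := i2.trans j2
  have k3 : |D| ≤ m * (KK m * g) * ‖a‖ / s := i3.trans j3
  have k4 : |D| ^ 2 ≤ (m * (KK m * g) * ‖a‖ / s) ^ 2 := by gcongr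
  have k5 : |2 * (A + B) * g - 2 * D * (2 * D)| ≤
      8 * m ^ 2 * KK m ^ 2 * g ^ 2 * ‖a‖ ^ 2 / s ^ 2 := by
    calc |2 * (A + B) * g - 2 * D * (2 * D)| ≤ 2 * (|A| + |B|) * g + 4 * |D| ^ 2 := by
          have e1 : |2 * (A + B) * g| ≤ 2 * (|A| + |B|) * g := by
            rw [abs_mul, abs_mul, abs_two, abs_of_pos hg]
            gcongr
            exact abs_add_le _ _
          have e2 : |2 * D * (2 * D)| = 4 * |D| ^ 2 := by
            rw [show 2 * D * (2 * D) = 4 * D ^ 2 by ring, abs_mul, abs_of_pos (by norm_num),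
              abs_pow]
          have e3 := abs_sub (2 * (A + B) * g) (2 * D * (2 * D))
          linarith
      _ ≤ 2 * (m ^ 2 * (KK m * g) * ‖a‖ ^ 2 / s ^ 2 + m ^ 2 * (KK m * g) * ‖a‖ ^ 2 / s ^ 2) * g +
          4 * (m * (KK m * g) * ‖a‖ / s) ^ 2 := by gcongr
      _ = (4 * KK m + 4 * KK m ^ 2) * (m ^ 2 * g ^ 2 * ‖a‖ ^ 2 / s ^ 2) := by
          field_simp
          ring
      _ ≤ (8 * KK m ^ 2) * (m ^ 2 * g ^ 2 * ‖a‖ ^ 2 / s ^ 2) := by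
          gcongr
          nlinarith
      _ = _ := by ring
  unfold u2
  rw [abs_mul, abs_div, abs_div, abs_of_pos hmR, abs_of_nonneg (sq_nonneg s), abs_of_nonneg (sq_nonneg g)]
  calc s ^ 2 * (|2 * (A + B) * g - 2 * D * (2 * D)| / g ^ 2 / m)
      ≤ s ^ 2 * (8 * m ^ 2 * KK m ^ 2 * g ^ 2 * ‖a‖ ^ 2 / s ^ 2 / g ^ 2 / m) := by gcongr
    _ = _ := by field_simp

/-- the second derivatives of `rho` are bounded uniformly in `s` -/
lemma second_bound {n m : ℕ} (hm : 0 < m) {s κ : ℝ} (hs : 0 < s) (hκ : 0 ≤ κ) (hκ1 : κ ≤ 1)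
    (hu : ∀ z a : ℂ, |u1 m s z a| ≤ κ * ‖a‖) (x v : Fin (n + 2) → ℂ) (hx : nsq x ≤ 1)
    (he : Real.exp (2 * uu m s (x 0)) ≤ 2) :
    |iteratedDeriv 2 (fun σ : ℝ => rho n m s (x + σ • v)) 0| ≤
      (22 + 32 * m * KK m ^ 2) * nsq v := by
  have hN : NN x ≤ 1 := by
    rw [nsq_eq] at hx
    nlinarith [sq_nonneg ‖x 0‖]
  have hN0 := NN_nonneg x
  have hNv := NN_nonneg v
  have hv : nsq v = ‖v 0‖ ^ 2 + NN v := nsq_eq v
  have hv0 : ‖v 0‖ ^ 2 ≤ nsq v := by linarith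
  have hv1 : NN v ≤ nsq v := by
    have := sq_nonneg ‖v 0‖
    linarith
  have hvn : 0 ≤ nsq v := by linarith
  rw [iter2 (line_rho m s x v) (line_r1 m s x v)]
  set e := Real.exp (2 * uu m s (x 0)) with hedef
  have he0 : 0 < e := Real.exp_pos _
  have h1 : |u1 m s (x 0) (v 0) * N1 x v| ≤ nsq v := by
    have := N1_bound x v hN κ hκ _ (hu (x 0) (v 0))
    nlinarith
  have h2 : u1 m s (x 0) (v 0) ^ 2 ≤ nsq v := by
    have h3 := hu (x 0) (v 0)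
    have h4 : |u1 m s (x 0) (v 0)| ≤ ‖v 0‖ := h3.trans (by nlinarith [norm_nonneg (v 0)])
    calc u1 m s (x 0) (v 0) ^ 2 = |u1 m s (x 0) (v 0)| ^ 2 := (sq_abs _).symm
      _ ≤ ‖v 0‖ ^ 2 := by gcongr
      _ ≤ _ := hv0
  have h5 : |u2 m s (x 0) (v 0)| ≤ 8 * m * KK m ^ 2 * nsq v := by
    refine (u2_le hm hs _ _).trans ?_
    gcongr
  set K := 8 * m * KK m ^ 2 with hKdef
  have hK0 : 0 ≤ K := by positivity
  have h6 : |4 * u1 m s (x 0) (v 0) ^ 2 * NN x + 4 * (u1 m s (x 0) (v 0) * N1 x v) +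
      2 * u2 m s (x 0) (v 0) * NN x + 2 * NN v| ≤ (10 + 2 * K) * nsq v := by
    have a1 : |4 * u1 m s (x 0) (v 0) ^ 2 * NN x| ≤ 4 * nsq v := by
      rw [abs_of_nonneg (by positivity)]
      calc 4 * u1 m s (x 0) (v 0) ^ 2 * NN x ≤ 4 * nsq v * 1 := by gcongr
        _ = _ := mul_one _
    have a2 : |4 * (u1 m s (x 0) (v 0) * N1 x v)| ≤ 4 * nsq v := by
      rw [abs_mul, abs_of_pos (by norm_num : (0 : ℝ) < 4)]
      gcongr
    have a3 : |2 * u2 m s (x 0) (v 0) * NN x| ≤ 2 * (K * nsq v) := by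
      rw [abs_mul, abs_mul, abs_two, abs_of_nonneg hN0]
      calc 2 * |u2 m s (x 0) (v 0)| * NN x ≤ 2 * (K * nsq v) * 1 := by gcongr
        _ = _ := mul_one _
    have a4 : |2 * NN v| ≤ 2 * nsq v := by
      rw [abs_of_nonneg (by positivity)]
      gcongr
    have a5 := abs_add_le (4 * u1 m s (x 0) (v 0) ^ 2 * NN x + 4 * (u1 m s (x 0) (v 0) * N1 x v) +
      2 * u2 m s (x 0) (v 0) * NN x) (2 * NN v)
    have a6 := abs_add_le (4 * u1 m s (x 0) (v 0) ^ 2 * NN x + 4 * (u1 m s (x 0) (v 0) * N1 x v))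
      (2 * u2 m s (x 0) (v 0) * NN x)
    have a7 := abs_add_le (4 * u1 m s (x 0) (v 0) ^ 2 * NN x) (4 * (u1 m s (x 0) (v 0) * N1 x v))
    linarith
  refine (abs_add_le _ _).trans ?_
  rw [abs_mul, abs_mul, abs_of_pos he0, abs_two, abs_of_nonneg (sq_nonneg ‖v 0‖)]
  calc 2 * ‖v 0‖ ^ 2 + e * |4 * u1 m s (x 0) (v 0) ^ 2 * NN x +
        4 * (u1 m s (x 0) (v 0) * N1 x v) + 2 * u2 m s (x 0) (v 0) * NN x + 2 * NN v|
      ≤ 2 * nsq v + 2 * ((10 + 2 * K) * nsq v) := by gcongr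
    _ = (22 + 4 * K) * nsq v := by ring
    _ = _ := by rw [hKdef]; ring

end Pool.Agent.U500.Inst
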